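import Pool.Agent.H460.ST.Inc

/-!
# Szemerédi–Trotter, part 4: incidences in the projective plane

Points and lines are given by nonzero vectors of `F³`; the point `x` is on the line `y` if
`dt x y = 0`.
-/

set_option autoImplicit false
set_option linter.unusedSectionVars false

namespace Pool.Agent.H460.ST

open Finset Polynomial

variable {F : Type*} [Field F] [LinearOrder F] [IsStrictOrderedRing F]

/-- there is a value of the parameter which is a root of none of finitely many quadratic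
polynomials -/
theorem exists_t (T : Finset (F × F × F)) (hT : ∀ q ∈ T, q ≠ 0) :
    ∃ t : F, ∀ q ∈ T, q.1 + q.2.1 * t + q.2.2 * t ^ 2 ≠ 0 := by
  classical
  have : Infinite F := inferInstance
  set p : F × F × F → F[X] := fun q => C q.1 + C q.2.1 * X + C q.2.2 * X ^ 2 with hp
  obtain ⟨t, ht⟩ := Infinite.exists_notMem_finset (T.biUnion (fun q => (p q).roots.toFinset))
  refine ⟨t, fun q hq h0 => ht ?_⟩
  rw [mem_biUnion]
  refine ⟨q, hq, ?_⟩
  rw [Multiset.mem_toFinset, mem_roots']
  constructor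
  · intro h
    apply hT q hq
    have h1 : (p q).coeff 0 = q.1 := by simp [hp, coeff_X, coeff_X_pow]
    have h2 : (p q).coeff 1 = q.2.1 := by simp [hp, coeff_X, coeff_X_pow, coeff_C]
    have h3 : (p q).coeff 2 = q.2.2 := by simp [hp, coeff_X, coeff_X_pow, coeff_C]
    rw [h] at h1 h2 h3
    simp only [coeff_zero] at h1 h2 h3
    exact Prod.ext h1.symm (Prod.ext h2.symm h3.symm)
  · rw [IsRoot.def]
    simp only [hp, eval_add, eval_mul, eval_C, eval_X, eval_pow]
    exact h0

/-- the scalar product -/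
def dt (x y : F × F × F) : F := x.1 * y.1 + x.2.1 * y.2.1 + x.2.2 * y.2.2

/-- the vectors are proportional -/
def Par (x y : F × F × F) : Prop :=
  x.1 * y.2.1 = x.2.1 * y.1 ∧ x.1 * y.2.2 = x.2.2 * y.1 ∧ x.2.1 * y.2.2 = x.2.2 * y.2.1

/-- **Szemerédi–Trotter in the projective plane.** -/
theorem proj {ι α β : Type*} (S : Finset ι) (A : Finset α) (B : Finset β) (a : ι → α) (b : ι → β)
    (x : α → F × F × F) (y : β → F × F × F) (ha : ∀ s ∈ S, a s ∈ A) (hb : ∀ s ∈ S, b s ∈ B)
    (hx : ∀ s ∈ S, x (a s) ≠ 0) (hy : ∀ s ∈ S, y (b s) ≠ 0)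
    (hd : ∀ s ∈ S, dt (x (a s)) (y (b s)) = 0)
    (hinj : ∀ s ∈ S, ∀ s' ∈ S, Par (x (a s)) (x (a s')) → Par (y (b s)) (y (b s')) → s = s') :
    ∃ n : ℕ, S.card ≤ n + B.card ∧
      (n ≤ 8 * A.card ∨ (n : ℝ) ^ 3 ≤ 128 * (A.card : ℝ) ^ 2 * (B.card : ℝ) ^ 2) := by
  classical
  set U : Finset (F × F × F) := S.image (fun s => x (a s)) with hU
  set V : Finset (F × F × F) := S.image (fun s => y (b s)) with hV
  have hU0 : ∀ u ∈ U, u ≠ 0 := by
    intro u hu
    obtain ⟨s, hs, rfl⟩ := mem_image.mp hu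
    exact hx s hs
  have hV0 : ∀ u ∈ V, u ≠ 0 := by
    intro u hu
    obtain ⟨s, hs, rfl⟩ := mem_image.mp hu
    exact hy s hs
  have hUA : U.card ≤ A.card := by
    calc U.card ≤ (A.image x).card := by
          apply card_le_card
          intro u hu
          obtain ⟨s, hs, rfl⟩ := mem_image.mp hu
          exact mem_image_of_mem _ (ha s hs)
      _ ≤ A.card := card_image_le
  have hVB : V.card ≤ B.card := by
    calc V.card ≤ (B.image y).card := by
          apply card_le_card
          intro u hu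
          obtain ⟨s, hs, rfl⟩ := mem_image.mp hu
          exact mem_image_of_mem _ (hb s hs)
      _ ≤ B.card := card_image_le
  -- the generic point at infinity
  set c1 : F × F × F → F × F × F := fun u =>
    (u.2.1 ^ 2 + u.2.2 ^ 2, -2 * (u.1 * u.2.1 + u.2.1 * u.2.2), u.1 ^ 2 + u.2.1 ^ 2) with hc1
  set c2 : (F × F × F) × (F × F × F) → F × F × F := fun w =>
    (w.1.2.1 * w.2.2.2 - w.1.2.2 * w.2.2.1, w.1.2.2 * w.2.1 - w.1.1 * w.2.2.2,
      w.1.1 * w.2.2.1 - w.1.2.1 * w.2.1) with hc2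
  obtain ⟨t, ht⟩ := exists_t (F := F) ((U.image c1) ∪ (V ∪
    (((U ×ˢ U).filter (fun w => ¬ Par w.1 w.2)).image c2))) (by
      intro q hq
      rw [mem_union, mem_union] at hq
      rcases hq with hq | hq | hq
      · obtain ⟨u, hu, rfl⟩ := mem_image.mp hq
        intro h
        rw [hc1] at h
        simp only [Prod.mk_eq_zero] at h
        obtain ⟨h1, -, h3⟩ := h
        have e1 : u.2.1 = 0 := by nlinarith [sq_nonneg u.2.1, sq_nonneg u.2.2, sq_nonneg u.1]
        have e2 : u.2.2 = 0 := by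
          rw [e1] at h1
          nlinarith [sq_nonneg u.2.2]
        have e3 : u.1 = 0 := by
          rw [e1] at h3
          nlinarith [sq_nonneg u.1]
        exact hU0 u hu (Prod.ext e3 (Prod.ext e1 e2))
      · exact hV0 q hq
      · obtain ⟨w, hw, rfl⟩ := mem_image.mp hq
        rw [mem_filter] at hw
        intro h
        apply hw.2
        rw [hc2] at h
        simp only [Prod.mk_eq_zero] at h
        obtain ⟨h1, h2, h3⟩ := h
        exact ⟨sub_eq_zero.mp h3, by linear_combination -h2, sub_eq_zero.mp h1⟩)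
  have ht1 : ∀ u ∈ U, ¬ (t * u.1 - u.2.1 = 0 ∧ t * u.2.1 - u.2.2 = 0) := by
    intro u hu h
    apply ht (c1 u) (mem_union_left _ (mem_image_of_mem _ hu))
    rw [hc1]
    simp only
    linear_combination (t * u.1 - u.2.1) * h.1 + (t * u.2.1 - u.2.2) * h.2
  have ht2 : ∀ v ∈ V, v.1 + v.2.1 * t + v.2.2 * t ^ 2 ≠ 0 :=
    fun v hv => ht v (mem_union_right _ (mem_union_left _ hv))
  have ht3 : ∀ u ∈ U, ∀ u' ∈ U, (t * u.1 - u.2.1) * (t * u'.2.1 - u'.2.2) =
      (t * u'.1 - u'.2.1) * (t * u.2.1 - u.2.2) → Par u u' := by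
    intro u hu u' hu' h
    by_contra hP
    apply ht (c2 (u, u')) (mem_union_right _ (mem_union_right _ (mem_image_of_mem _
      (mem_filter.mpr ⟨mem_product.mpr ⟨hu, hu'⟩, hP⟩))))
    rw [hc2]
    simp only
    linear_combination h
  -- the generic line at infinity
  obtain ⟨s, hs⟩ := exists_t (F := F) (U.image (fun u =>
    (t * u.2.1 - u.2.2, t * u.1 - u.2.1, (0 : F)))) (by
      intro q hq
      obtain ⟨u, hu, rfl⟩ := mem_image.mp hq
      intro h
      simp only [Prod.mk_eq_zero] at h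
      exact ht1 u hu ⟨h.2.1, h.1⟩)
  set φ : F × F × F → F := fun u => (t * u.2.1 - u.2.2) + (t * u.1 - u.2.1) * s with hφ
  have hφ0 : ∀ u ∈ U, φ u ≠ 0 := by
    intro u hu
    have := hs _ (mem_image_of_mem _ hu)
    simp only [zero_mul, add_zero] at this
    exact this
  set ν : F × F × F → F := fun v => v.1 + v.2.1 * t + v.2.2 * t ^ 2 with hν
  set pt : F × F × F → F × F := fun u => ((t * u.1 - u.2.1) / φ u, u.1 / φ u) with hpt
  set ln : F × F × F → F × F := fun v => ((v.2.1 + t * v.2.2 - s * v.2.2) / ν v, v.2.2 / ν v)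
    with hln
  have hon : ∀ u ∈ U, ∀ v ∈ V, dt u v = 0 → On (ln v) (pt u) := by
    intro u hu v hv h
    have h1 := hφ0 u hu
    have h2 : ν v ≠ 0 := ht2 v hv
    unfold On
    rw [hln, hpt]
    simp only
    rw [div_mul_div_comm, div_add_div _ _ (mul_ne_zero h2 h1) h2, div_eq_div_iff h1
      (mul_ne_zero (mul_ne_zero h2 h1) h2)]
    have h3 : u.1 * ν v = (v.2.1 + t * v.2.2 - s * v.2.2) * (t * u.1 - u.2.1) + v.2.2 * φ u := by
      unfold dt at h
      rw [hν, hφ]
      simp only
      linear_combination h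
    calc u.1 * (ν v * φ u * ν v) = (u.1 * ν v) * (φ u * ν v) := by ring
      _ = _ := by rw [h3]; ring
  have hpar : ∀ u ∈ U, ∀ u' ∈ U, pt u = pt u' → Par u u' := by
    intro u hu u' hu' h
    have h1 := hφ0 u hu
    have h2 := hφ0 u' hu'
    rw [hpt] at h
    simp only [Prod.mk.injEq] at h
    rw [div_eq_div_iff h1 h2, div_eq_div_iff h1 h2] at h
    apply ht3 u hu u' hu'
    have h3 : (t * u.1 - u.2.1) * ((t * u'.2.1 - u'.2.2) + (t * u'.1 - u'.2.1) * s) =
        (t * u'.1 - u'.2.1) * ((t * u.2.1 - u.2.2) + (t * u.1 - u.2.1) * s) := h.1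
    linear_combination h3
  have hparl : ∀ v ∈ V, ∀ v' ∈ V, ln v = ln v' → Par v v' := by
    intro v hv v' hv' h
    have h1 : ν v ≠ 0 := ht2 v hv
    have h2 : ν v' ≠ 0 := ht2 v' hv'
    rw [hln] at h
    simp only [Prod.mk.injEq] at h
    rw [div_eq_div_iff h1 h2, div_eq_div_iff h1 h2] at h
    obtain ⟨h3, h4⟩ := h
    have h5 : v.2.1 * ν v' = v'.2.1 * ν v := by linear_combination h3 - (t - s) * h4
    have h6 : v.1 * ν v' = v'.1 * ν v := by
      have e1 : v.1 = ν v - v.2.1 * t - v.2.2 * t ^ 2 := by rw [hν]; simp only; ring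
      have e2 : v'.1 = ν v' - v'.2.1 * t - v'.2.2 * t ^ 2 := by rw [hν]; simp only; ring
      rw [e1, e2]
      linear_combination (-t) * h5 - t ^ 2 * h4
    refine ⟨?_, ?_, ?_⟩
    · have : ν v' * (v.1 * v'.2.1) = ν v' * (v.2.1 * v'.1) := by
        linear_combination v'.2.1 * h6 - v'.1 * h5
      exact mul_left_cancel₀ h2 this
    · have : ν v' * (v.1 * v'.2.2) = ν v' * (v.2.2 * v'.1) := by
        linear_combination v'.2.2 * h6 - v'.1 * h4
      exact mul_left_cancel₀ h2 this
    · have : ν v' * (v.2.1 * v'.2.2) = ν v' * (v.2.2 * v'.2.1) := by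
        linear_combination v'.2.2 * h5 - v'.2.1 * h4
      exact mul_left_cancel₀ h2 this
  have hinj' : ∀ p ∈ U.image pt, ∀ q ∈ U.image pt, p.1 = q.1 → p = q := by
    intro p hp q hq h
    obtain ⟨u, hu, rfl⟩ := mem_image.mp hp
    obtain ⟨u', hu', rfl⟩ := mem_image.mp hq
    have h1 := hφ0 u hu
    have h2 := hφ0 u' hu'
    apply Prod.ext h
    rw [hpt] at h ⊢
    simp only at h ⊢
    rw [div_eq_div_iff h1 h2] at h ⊢
    have h3 : Par u u' := by
      apply ht3 u hu u' hu'
      have h' : (t * u.1 - u.2.1) * ((t * u'.2.1 - u'.2.2) + (t * u'.1 - u'.2.1) * s) =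
        (t * u'.1 - u'.2.1) * ((t * u.2.1 - u.2.2) + (t * u.1 - u.2.1) * s) := h
      linear_combination h'
    obtain ⟨p1, p2, p3⟩ := h3
    show u.1 * ((t * u'.2.1 - u'.2.2) + (t * u'.1 - u'.2.1) * s) =
        u'.1 * ((t * u.2.1 - u.2.2) + (t * u.1 - u.2.1) * s)
    linear_combination (t - s) * p1 - p2
  obtain ⟨n, hn1, hn2⟩ := inc (U.image pt) (V.image ln) hinj'
  have hP : (U.image pt).card ≤ A.card := card_image_le.trans hUA
  have hL : (V.image ln).card ≤ B.card := card_image_le.trans hVB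
  refine ⟨n, ?_, ?_⟩
  · have h1 : S.card ≤ (((U.image pt) ×ˢ (V.image ln)).filter (fun q => On q.2 q.1)).card := by
      apply card_le_card_of_injOn (fun s => (pt (x (a s)), ln (y (b s))))
      · intro s hs
        have hs' : s ∈ S := hs
        have m1 : x (a s) ∈ U := mem_image_of_mem (fun s => x (a s)) hs'
        have m2 : y (b s) ∈ V := mem_image_of_mem (fun s => y (b s)) hs'
        rw [Finset.mem_coe, mem_filter, mem_product]
        exact ⟨⟨mem_image_of_mem _ m1, mem_image_of_mem _ m2⟩, hon _ m1 _ m2 (hd s hs')⟩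
      · intro s hs s' hs' h
        have m0 : s ∈ S := hs
        have m0' : s' ∈ S := hs'
        have m1 : x (a s) ∈ U := mem_image_of_mem (fun s => x (a s)) m0
        have m2 : y (b s) ∈ V := mem_image_of_mem (fun s => y (b s)) m0
        have m1' : x (a s') ∈ U := mem_image_of_mem (fun s => x (a s)) m0'
        have m2' : y (b s') ∈ V := mem_image_of_mem (fun s => y (b s)) m0'
        simp only [Prod.mk.injEq] at h
        exact hinj s m0 s' m0' (hpar _ m1 _ m1' h.1) (hparl _ m2 _ m2' h.2)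
    omega
  · rcases hn2 with h | h
    · left; omega
    · right
      refine h.trans ?_
      have h1 : ((U.image pt).card : ℝ) ≤ A.card := by exact_mod_cast hP
      have h2 : ((V.image ln).card : ℝ) ≤ B.card := by exact_mod_cast hL
      gcongr

end Pool.Agent.H460.ST
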