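import Pool.Agent.H460.ST.NonCross

/-!
# Szemerédi–Trotter, part 2: the crossing inequality
-/

set_option autoImplicit false
set_option linter.unusedSectionVars false

namespace Pool.Agent.H460.ST

open Finset

variable {F : Type*} [Field F] [LinearOrder F] [IsStrictOrderedRing F]
variable {P : Finset (F × F)} {E : Finset ((F × F) × (F × F))}

theorem PG.mono (h : PG P E) {P' : Finset (F × F)} {E' : Finset ((F × F) × (F × F))}
    (hP : P' ⊆ P) (hE : E' ⊆ E) (h1 : ∀ e ∈ E', e.1 ∈ P') (h2 : ∀ e ∈ E', e.2 ∈ P') :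
    PG P' E' where
  inj := fun p hp q hq => h.inj p (hP hp) q (hP hq)
  left := h1
  right := h2
  lt := fun e he => h.lt e (hE he)
  vert := fun e he r hr => h.vert e (hE he) r (hP hr)

/-- the pairs of crossing edges -/
noncomputable def Cr (E : Finset ((F × F) × (F × F))) :
    Finset (((F × F) × (F × F)) × ((F × F) × (F × F))) :=
  @Finset.filter _ (fun q => q.1 ≠ q.2 ∧ Crosses q.1 q.2) (Classical.decPred _) (E ×ˢ E)

theorem mem_Cr {q : ((F × F) × (F × F)) × ((F × F) × (F × F))} :
    q ∈ Cr E ↔ q.1 ∈ E ∧ q.2 ∈ E ∧ q.1 ≠ q.2 ∧ Crosses q.1 q.2 := by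
  unfold Cr
  simp only [mem_filter, mem_product]
  tauto

theorem weak_aux (n : ℕ) : ∀ E : Finset ((F × F) × (F × F)), E.card = n → PG P E →
    E.card ≤ 4 * P.card + (Cr E).card := by
  classical
  induction n with
  | zero => intro E hE _; omega
  | succ n ih =>
    intro E hE hG
    by_cases hc : ∀ e ∈ E, ∀ e' ∈ E, e ≠ e' → ¬ Crosses e e'
    · have := noncross hG hc
      omega
    · push Not at hc
      obtain ⟨e, he, e', he', hne, hcr⟩ := hc
      have h1 : (E.erase e).card = n := by rw [card_erase_of_mem he, hE]; rfl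
      have h2 := ih (E.erase e) h1 (hG.mono (subset_refl _) (erase_subset _ _)
        (fun f hf => hG.left f (erase_subset _ _ hf)) (fun f hf => hG.right f (erase_subset _ _ hf)))
      have h3 : Cr (E.erase e) ⊆ (Cr E).erase (e, e') := by
        intro q hq
        rw [mem_Cr, mem_erase, mem_erase] at hq
        rw [mem_erase, mem_Cr]
        refine ⟨?_, hq.1.2, hq.2.1.2, hq.2.2.1, hq.2.2.2⟩
        rintro rfl
        exact hq.1.1 rfl
      have h4 : (e, e') ∈ Cr E := mem_Cr.mpr ⟨he, he', hne, hcr⟩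
      have h5 := card_le_card h3
      rw [card_erase_of_mem h4] at h5
      have h6 : 0 < (Cr E).card := card_pos.mpr ⟨_, h4⟩
      omega

theorem weak (hG : PG P E) : E.card ≤ 4 * P.card + (Cr E).card := weak_aux _ E rfl hG

theorem wsum {α : Type*} [DecidableEq α] (s T : Finset α) (hT : T ⊆ s) (p : ℝ) :
    ∑ t ∈ s.powerset, (p ^ t.card * (1 - p) ^ (s \ t).card) * (if T ⊆ t then 1 else 0) =
      p ^ T.card := by
  have h1 := Finset.prod_add (fun _ : α => p) (fun i => if i ∈ T then 0 else 1 - p) s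
  have h2 : ∏ i ∈ s, (p + (if i ∈ T then 0 else 1 - p)) = p ^ T.card := by
    have : ∀ i ∈ s, (p + (if i ∈ T then 0 else 1 - p)) = if i ∈ T then p else 1 := by
      intro i _
      split_ifs <;> ring
    rw [prod_congr rfl this, prod_ite, prod_const, prod_const_one, mul_one]
    congr 2
    ext i
    simp only [mem_filter]
    exact ⟨fun h => h.2, fun h => ⟨hT h, h⟩⟩
  rw [← h2, h1]
  refine sum_congr rfl fun t _ => ?_
  rw [prod_const]
  by_cases h : T ⊆ t
  · rw [if_pos h, mul_one]
    congr 1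
    rw [← prod_const]
    refine prod_congr rfl fun i hi => ?_
    rw [mem_sdiff] at hi
    rw [if_neg (fun hh => hi.2 (h hh))]
  · rw [if_neg h, mul_zero]
    symm
    obtain ⟨i, hiT, hit⟩ := not_subset.mp h
    apply mul_eq_zero_of_right
    exact prod_eq_zero (mem_sdiff.mpr ⟨hT hiT, hit⟩) (by rw [if_pos hiT])

/-- the four endpoints of two crossing edges are distinct -/
theorem four (hG : PG P E) {e e' : (F × F) × (F × F)} (he : e ∈ E) (he' : e' ∈ E) (hne : e ≠ e')
    (hc : Crosses e e') [DecidableEq F] : ({e.1, e.2, e'.1, e'.2} : Finset (F × F)).card = 4 := by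
  obtain ⟨x, h1, h2, h3, h4, h5⟩ := hc
  have a1 := hG.lt e he
  have a2 := hG.lt e' he'
  have b1 : e.1 ≠ e.2 := fun h => by rw [h] at a1; exact lt_irrefl _ a1
  have b2 : e'.1 ≠ e'.2 := fun h => by rw [h] at a2; exact lt_irrefl _ a2
  have b3 : e.2 ≠ e'.1 := fun h => by rw [h] at h2; exact lt_irrefl _ (h2.trans h3)
  have b4 : e.1 ≠ e'.2 := fun h => by rw [h] at h1; exact lt_irrefl _ (h4.trans h1)
  have b5 : e.1 ≠ e'.1 := by
    intro h
    apply hne
    apply hG.same_left he he' h
    have : sl e * (x - e.1.1) = sl e' * (x - e.1.1) := by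
      unfold ht at h5
      rw [← h] at h5
      linarith
    exact mul_right_cancel₀ (sub_pos.mpr h1).ne' this
  have b6 : e.2 ≠ e'.2 := by
    intro h
    apply hne
    apply hG.same_right he he' h
    rw [ht_sub e x e.2.1, ht_sub e' x e'.2.1, ht_right e a1, ht_right e' a2, ← h] at h5
    have : sl e * (x - e.2.1) = sl e' * (x - e.2.1) := by linarith
    exact mul_right_cancel₀ (sub_neg.mpr h2).ne this
  rw [card_insert_of_notMem, card_insert_of_notMem, card_pair b2]
  · rw [mem_insert, mem_singleton]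
    push Not
    exact ⟨b3, b6⟩
  · rw [mem_insert, mem_insert, mem_singleton]
    push Not
    exact ⟨b1, b5, b4⟩

/-- **The crossing inequality**, with a parameter. -/
theorem crossing (hG : PG P E) (p : ℝ) (hp0 : 0 ≤ p) (hp1 : p ≤ 1) :
    (E.card : ℝ) * p ^ 2 ≤ 4 * (P.card * p) + (Cr E).card * p ^ 4 := by
  classical
  set w : Finset (F × F) → ℝ := fun t => p ^ t.card * (1 - p) ^ (P \ t).card with hw
  have hw0 : ∀ t, 0 ≤ w t := fun t => mul_nonneg (pow_nonneg hp0 _) (pow_nonneg (by linarith) _)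
  -- the inequality for a set of vertices
  have hind : ∀ t ∈ P.powerset,
      w t * (∑ e ∈ E, if ({e.1, e.2} : Finset (F × F)) ⊆ t then (1 : ℝ) else 0) ≤
      w t * (4 * ∑ x ∈ P, (if ({x} : Finset (F × F)) ⊆ t then (1 : ℝ) else 0) +
        ∑ q ∈ Cr E, if ({q.1.1, q.1.2, q.2.1, q.2.2} : Finset (F × F)) ⊆ t then (1 : ℝ) else 0) := by
    intro t ht
    rw [mem_powerset] at ht
    apply mul_le_mul_of_nonneg_left _ (hw0 t)
    set Et := E.filter (fun e => ({e.1, e.2} : Finset (F × F)) ⊆ t) with hEt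
    have hGt : PG t Et := by
      refine hG.mono ht (filter_subset _ _) ?_ ?_
      · intro e he
        rw [hEt, mem_filter] at he
        exact he.2 (mem_insert_self _ _)
      · intro e he
        rw [hEt, mem_filter] at he
        exact he.2 (mem_insert_of_mem (mem_singleton_self _))
    have h1 := weak hGt
    have h2 : (Cr Et).card ≤
        ((Cr E).filter (fun q => ({q.1.1, q.1.2, q.2.1, q.2.2} : Finset (F × F)) ⊆ t)).card := by
      apply card_le_card
      intro q hq
      rw [mem_Cr, hEt, mem_filter, mem_filter] at hq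
      rw [mem_filter, mem_Cr]
      refine ⟨⟨hq.1.1, hq.2.1.1, hq.2.2⟩, ?_⟩
      intro z hz
      simp only [mem_insert, mem_singleton] at hz
      rcases hz with rfl | rfl | rfl | rfl
      · exact hq.1.2 (mem_insert_self _ _)
      · exact hq.1.2 (mem_insert_of_mem (mem_singleton_self _))
      · exact hq.2.1.2 (mem_insert_self _ _)
      · exact hq.2.1.2 (mem_insert_of_mem (mem_singleton_self _))
    have h3 : t.card = (P.filter (fun x => ({x} : Finset (F × F)) ⊆ t)).card := by
      congr 1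
      ext x
      rw [mem_filter, singleton_subset_iff]
      exact ⟨fun h => ⟨ht h, h⟩, fun h => h.2⟩
    simp only [sum_boole]
    have h4 : Et.card ≤ 4 * (P.filter (fun x => ({x} : Finset (F × F)) ⊆ t)).card +
        ((Cr E).filter (fun q => ({q.1.1, q.1.2, q.2.1, q.2.2} : Finset (F × F)) ⊆ t)).card := by
      omega
    exact_mod_cast h4
  have hsum := sum_le_sum hind
  have hL : ∑ t ∈ P.powerset, w t * (∑ e ∈ E, if ({e.1, e.2} : Finset (F × F)) ⊆ t then (1 : ℝ)
      else 0) = E.card * p ^ 2 := by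
    simp only [mul_sum]
    rw [sum_comm]
    have : ∀ e ∈ E, ∑ t ∈ P.powerset, w t * (if ({e.1, e.2} : Finset (F × F)) ⊆ t then (1 : ℝ)
        else 0) = p ^ 2 := by
      intro e he
      rw [hw, wsum P _ _ p]
      · congr 1
        apply card_pair
        intro h
        have := hG.lt e he
        rw [h] at this
        exact lt_irrefl _ this
      · intro z hz
        rw [mem_insert, mem_singleton] at hz
        rcases hz with rfl | rfl
        · exact hG.left e he
        · exact hG.right e he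
    rw [sum_congr rfl this, sum_const, nsmul_eq_mul]
  have hR1 : ∑ t ∈ P.powerset, w t * ∑ x ∈ P, (if ({x} : Finset (F × F)) ⊆ t then (1 : ℝ)
      else 0) = P.card * p := by
    simp only [mul_sum]
    rw [sum_comm]
    have : ∀ x ∈ P, ∑ t ∈ P.powerset, w t * (if ({x} : Finset (F × F)) ⊆ t then (1 : ℝ)
        else 0) = p := by
      intro x hx
      rw [hw, wsum P _ (singleton_subset_iff.mpr hx) p, card_singleton, pow_one]
    rw [sum_congr rfl this, sum_const, nsmul_eq_mul]
  have hR2 : ∑ t ∈ P.powerset, w t * (∑ q ∈ Cr E, if ({q.1.1, q.1.2, q.2.1, q.2.2} :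
      Finset (F × F)) ⊆ t then (1 : ℝ) else 0) = (Cr E).card * p ^ 4 := by
    simp only [mul_sum]
    rw [sum_comm]
    have : ∀ q ∈ Cr E, ∑ t ∈ P.powerset, w t * (if ({q.1.1, q.1.2, q.2.1, q.2.2} :
      Finset (F × F)) ⊆ t then (1 : ℝ) else 0) = p ^ 4 := by
      intro q hq
      rw [mem_Cr] at hq
      rw [hw, wsum P _ _ p]
      · rw [four hG hq.1 hq.2.1 hq.2.2.1 hq.2.2.2]
      · intro z hz
        simp only [mem_insert, mem_singleton] at hz
        rcases hz with rfl | rfl | rfl | rfl
        · exact hG.left _ hq.1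
        · exact hG.right _ hq.1
        · exact hG.left _ hq.2.1
        · exact hG.right _ hq.2.1
    rw [sum_congr rfl this, sum_const, nsmul_eq_mul]
  rw [hL] at hsum
  refine hsum.trans (le_of_eq ?_)
  rw [← hR1, ← hR2, mul_sum, ← sum_add_distrib]
  refine sum_congr rfl fun t _ => ?_
  ring

/-- **The crossing inequality.** -/
theorem crossing' (hG : PG P E) (h : 8 * P.card ≤ E.card) :
    (E.card : ℝ) ^ 3 ≤ 128 * (P.card : ℝ) ^ 2 * (Cr E).card := by
  rcases Nat.eq_zero_or_pos E.card with h0 | h0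
  · rw [h0]
    have : (0 : ℝ) ≤ 128 * (P.card : ℝ) ^ 2 * (Cr E).card := by positivity
    simpa using this
  have hE : (0 : ℝ) < E.card := by exact_mod_cast h0
  have hP : 8 * (P.card : ℝ) ≤ E.card := by exact_mod_cast h
  have hP0 : (0 : ℝ) < P.card := by
    have : 0 < P.card := by
      obtain ⟨e, he⟩ := card_pos.mp h0
      exact card_pos.mpr ⟨_, hG.left e he⟩
    exact_mod_cast this
  set p : ℝ := 8 * P.card / E.card with hp
  have hp0 : 0 < p := by positivity
  have hp1 : p ≤ 1 := by rw [hp, div_le_one hE]; exact hP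
  have h1 := crossing hG p hp0.le hp1
  have h2 : (E.card : ℝ) * p = 8 * P.card := by rw [hp]; field_simp
  have h3 : (E.card : ℝ) * p ^ 2 = 8 * P.card * p := by rw [sq, ← mul_assoc, h2]
  have h4 : 4 * (P.card * p) ≤ ((Cr E).card : ℝ) * p ^ 4 := by rw [h3] at h1; linarith
  have h5 : 4 * (P.card : ℝ) ≤ ((Cr E).card : ℝ) * p ^ 3 := by
    have : 4 * (P.card * p) ≤ (((Cr E).card : ℝ) * p ^ 3) * p := by
      calc 4 * (P.card * p) ≤ ((Cr E).card : ℝ) * p ^ 4 := h4
        _ = _ := by ring
    have h6 : (4 * (P.card : ℝ)) * p ≤ (((Cr E).card : ℝ) * p ^ 3) * p := by linarith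
    exact le_of_mul_le_mul_right h6 hp0
  have h6 : 4 * (P.card : ℝ) * (E.card : ℝ) ^ 3 ≤ (Cr E).card * (8 * P.card) ^ 3 := by
    calc 4 * (P.card : ℝ) * (E.card : ℝ) ^ 3 ≤ (((Cr E).card : ℝ) * p ^ 3) * (E.card : ℝ) ^ 3 := by
          gcongr
      _ = (Cr E).card * ((E.card : ℝ) * p) ^ 3 := by ring
      _ = _ := by rw [h2]
  have h7 : 4 * (P.card : ℝ) * (E.card : ℝ) ^ 3 ≤
      4 * (P.card : ℝ) * (128 * (P.card : ℝ) ^ 2 * (Cr E).card) := by
    refine h6.trans (le_of_eq ?_)
    ring
  exact le_of_mul_le_mul_left h7 (by positivity)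

end Pool.Agent.H460.ST
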