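import Pool.Agent.H460.ST.Cross

/-!
# Szemerédi–Trotter, part 3: incidences of points and non-vertical lines in the plane
-/

set_option autoImplicit false
set_option linter.unusedSectionVars false

namespace Pool.Agent.H460.ST

open Finset

variable {F : Type*} [Field F] [LinearOrder F] [IsStrictOrderedRing F]

/-- the point `p` lies on the line `y = l.1 x + l.2` -/
def On (l p : F × F) : Prop := p.2 = l.1 * p.1 + l.2

/-- consecutive points of `P` on the line `l` -/
def Cons (P : Finset (F × F)) (l : F × F) (e : (F × F) × (F × F)) : Prop :=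
  e.1 ∈ P ∧ e.2 ∈ P ∧ e.1.1 < e.2.1 ∧ On l e.1 ∧ On l e.2 ∧
    ∀ r ∈ P, On l r → e.1.1 < r.1 → r.1 < e.2.1 → False

theorem Cons.sl_eq {P : Finset (F × F)} {l : F × F} {e : (F × F) × (F × F)} (h : Cons P l e) :
    sl e = l.1 := by
  obtain ⟨-, -, h3, h4, h5, -⟩ := h
  unfold sl
  have h6 : e.2.1 - e.1.1 ≠ 0 := (sub_pos.mpr h3).ne'
  rw [div_eq_iff h6, h4, h5]
  ring

theorem Cons.ht_eq {P : Finset (F × F)} {l : F × F} {e : (F × F) × (F × F)} (h : Cons P l e)
    (x : F) : ht e x = l.1 * x + l.2 := by
  unfold ht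
  rw [h.sl_eq, h.2.2.2.1]
  ring

/-- two segments of the same line that overlap are equal -/
theorem Cons.eq_of {P : Finset (F × F)} (hinj : ∀ p ∈ P, ∀ q ∈ P, p.1 = q.1 → p = q)
    {l : F × F} {e f : (F × F) × (F × F)} (h : Cons P l e) (h' : Cons P l f) {x : F}
    (h1 : e.1.1 < x) (h2 : x < e.2.1) (h3 : f.1.1 < x) (h4 : x < f.2.1) : e = f := by
  obtain ⟨a1, a2, a3, a4, a5, a6⟩ := h
  obtain ⟨b1, b2, b3, b4, b5, b6⟩ := h'
  apply Prod.ext
  · apply hinj _ a1 _ b1
    rcases lt_trichotomy e.1.1 f.1.1 with h | h | h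
    · exact (a6 _ b1 b4 h (h3.trans h2)).elim
    · exact h
    · exact (b6 _ a1 a4 h (h1.trans h4)).elim
  · apply hinj _ a2 _ b2
    rcases lt_trichotomy e.2.1 f.2.1 with h | h | h
    · exact (b6 _ a2 a5 (h3.trans h2) h).elim
    · exact h
    · exact (a6 _ b2 b5 (h1.trans h4) h).elim

/-- a line is determined by two of its points -/
theorem line_eq {l l' p q : F × F} (hpq : p.1 < q.1) (h1 : On l p) (h2 : On l q) (h3 : On l' p)
    (h4 : On l' q) : l = l' := by
  unfold On at h1 h2 h3 h4
  have h5 : (l.1 - l'.1) * (q.1 - p.1) = 0 := by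
    linear_combination h4 - h2 + h1 - h3
  have h6 : q.1 - p.1 ≠ 0 := (sub_pos.mpr hpq).ne'
  have h7 : l.1 = l'.1 := sub_eq_zero.mp ((mul_eq_zero.mp h5).resolve_right h6)
  apply Prod.ext h7
  rw [h7] at h1
  linear_combination h3 - h1

/-- **Szemerédi–Trotter** in integers: `I` is the number of incidences. -/
theorem inc (P L : Finset (F × F)) (hinj : ∀ p ∈ P, ∀ q ∈ P, p.1 = q.1 → p = q)
    [DecidablePred fun q : (F × F) × (F × F) => On q.2 q.1] :
    ∃ n : ℕ, ((P ×ˢ L).filter (fun q => On q.2 q.1)).card ≤ n + L.card ∧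
      (n ≤ 8 * P.card ∨ (n : ℝ) ^ 3 ≤ 128 * (P.card : ℝ) ^ 2 * (L.card : ℝ) ^ 2) := by
  classical
  set E : Finset ((F × F) × (F × F)) := (P ×ˢ P).filter (fun e => ∃ l ∈ L, Cons P l e) with hE
  have hEm : ∀ e ∈ E, ∃ l, l ∈ L ∧ Cons P l e := by
    intro e he
    rw [hE, mem_filter] at he
    exact he.2
  have hG : PG P E := by
    refine ⟨hinj, ?_, ?_, ?_, ?_⟩
    · intro e he
      obtain ⟨l, -, h⟩ := hEm e he
      exact h.1
    · intro e he
      obtain ⟨l, -, h⟩ := hEm e he
      exact h.2.1
    · intro e he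
      obtain ⟨l, -, h⟩ := hEm e he
      exact h.2.2.1
    · intro e he r hr h1 h2 h3
      obtain ⟨l, -, h⟩ := hEm e he
      rw [h.ht_eq] at h3
      exact h.2.2.2.2.2 r hr h3 h1 h2
  refine ⟨E.card, ?_, ?_⟩
  · -- every incidence which is not the last one of its line gives an edge
    set I := (P ×ˢ L).filter (fun q => On q.2 q.1) with hI
    set A := I.filter (fun q => ∃ r ∈ P, On q.2 r ∧ q.1.1 < r.1) with hA
    set B := I.filter (fun q => ¬ ∃ r ∈ P, On q.2 r ∧ q.1.1 < r.1) with hB
    have hAB : I.card = A.card + B.card := (card_filter_add_card_filter_not _).symm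
    have hA1 : A.card ≤ E.card := by
      have hn : ∀ q ∈ A, ∃ r, Cons P q.2 (q.1, r) := by
        intro q hq
        rw [hA, mem_filter, hI, mem_filter, mem_product] at hq
        obtain ⟨⟨⟨h1, h2⟩, h3⟩, r0, h4, h5, h6⟩ := hq
        obtain ⟨r, hr, hrm⟩ := Finset.exists_min_image
          (P.filter (fun r => On q.2 r ∧ q.1.1 < r.1)) (fun r => r.1)
          ⟨r0, mem_filter.mpr ⟨h4, h5, h6⟩⟩
        rw [mem_filter] at hr
        refine ⟨r, h1, hr.1, hr.2.2, h3, hr.2.1, ?_⟩
        intro s hs hs1 hs2 hs3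
        exact absurd (hrm s (mem_filter.mpr ⟨hs, hs1, hs2⟩)) (not_le.mpr hs3)
      choose! r hr using hn
      apply card_le_card_of_injOn (fun q => (q.1, r q))
      · intro q hq
        have hq' : q ∈ A := hq
        have h1 := hr q hq'
        rw [hA, mem_filter, hI, mem_filter, mem_product] at hq'
        rw [Finset.mem_coe, hE, mem_filter, mem_product]
        exact ⟨⟨h1.1, h1.2.1⟩, q.2, hq'.1.1.2, h1⟩
      · intro q hq q' hq' hqq
        have h1 := hr q hq
        have h2 := hr q' hq'
        simp only [Prod.mk.injEq] at hqq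
        apply Prod.ext hqq.1
        apply line_eq h1.2.2.1 h1.2.2.2.1 h1.2.2.2.2.1
        · have := h2.2.2.2.1
          simp only at this ⊢
          rw [hqq.1]; exact this
        · have := h2.2.2.2.2.1
          simp only at this ⊢
          rw [hqq.2]; exact this
    have hB1 : B.card ≤ L.card := by
      apply card_le_card_of_injOn (fun q => q.2)
      · intro q hq
        rw [Finset.mem_coe, hB, mem_filter, hI, mem_filter, mem_product] at hq
        exact hq.1.1.2
      · intro q hq q' hq' hqq
        rw [Finset.mem_coe, hB, mem_filter, hI, mem_filter, mem_product] at hq hq'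
        obtain ⟨⟨⟨h1, h2⟩, h3⟩, h4⟩ := hq
        obtain ⟨⟨⟨h1', h2'⟩, h3'⟩, h4'⟩ := hq'
        simp only at hqq
        apply Prod.ext _ hqq
        apply hinj _ h1 _ h1'
        rcases lt_trichotomy q.1.1 q'.1.1 with h | h | h
        · exact absurd ⟨q'.1, h1', by rw [hqq]; exact h3', h⟩ h4
        · exact h
        · exact absurd ⟨q.1, h1, by rw [← hqq]; exact h3, h⟩ h4'
    omega
  · by_cases h8 : 8 * P.card ≤ E.card
    · right
      refine (crossing' hG h8).trans ?_
      have hCr : (Cr E).card ≤ (L ×ˢ L).card := by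
        choose! lf hl1 hl2 using hEm
        apply card_le_card_of_injOn (fun q => (lf q.1, lf q.2))
        · intro q hq
          rw [Finset.mem_coe, mem_Cr] at hq
          rw [Finset.mem_coe, mem_product]
          exact ⟨hl1 _ hq.1, hl1 _ hq.2.1⟩
        · intro q hq q' hq' hqq
          rw [Finset.mem_coe, mem_Cr] at hq hq'
          obtain ⟨h1, h2, h3, x, x1, x2, x3, x4, x5⟩ := hq
          obtain ⟨h1', h2', h3', y, y1, y2, y3, y4, y5⟩ := hq'
          simp only [Prod.mk.injEq] at hqq
          obtain ⟨e1, e2⟩ := hqq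
          have c1 := hl2 _ h1
          have c2 := hl2 _ h2
          have c1' := hl2 _ h1'
          have c2' := hl2 _ h2'
          rw [c1.ht_eq, c2.ht_eq] at x5
          rw [c1'.ht_eq, c2'.ht_eq, ← e1, ← e2] at y5
          rw [← e1] at c1'
          rw [← e2] at c2'
          have hne : lf q.1 ≠ lf q.2 := by
            intro h
            apply h3
            rw [← h] at c2
            exact c1.eq_of hinj c2 x1 x2 x3 x4
          have hs : (lf q.1).1 ≠ (lf q.2).1 := by
            intro h
            apply hne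
            apply Prod.ext h
            rw [h] at x5
            linarith
          have hxy : x = y := by
            have : ((lf q.1).1 - (lf q.2).1) * (x - y) = 0 := by
              linear_combination x5 - y5
            rcases mul_eq_zero.mp this with h | h
            · exact absurd (sub_eq_zero.mp h) hs
            · exact sub_eq_zero.mp h
          subst hxy
          apply Prod.ext
          · exact c1.eq_of hinj c1' x1 x2 y1 y2
          · exact c2.eq_of hinj c2' x3 x4 y3 y4
      rw [card_product] at hCr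
      have hCr' : ((Cr E).card : ℝ) ≤ (L.card : ℝ) ^ 2 := by
        rw [sq]; exact_mod_cast hCr
      gcongr
    · left
      omega

end Pool.Agent.H460.ST
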