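import Mathlib

/-!
# Szemerédi–Trotter, part 1: plane straight-line graphs have few edges

`F` is an ordered field. The edges are pairs of points of the plane `F × F`, directed to the right.
-/

set_option autoImplicit false
set_option linter.unusedSectionVars false

namespace Pool.Agent.H460.ST

open Finset

variable {F : Type*} [Field F] [LinearOrder F] [IsStrictOrderedRing F]

/-- slope of the segment `e` -/
def sl (e : (F × F) × (F × F)) : F := (e.2.2 - e.1.2) / (e.2.1 - e.1.1)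

/-- height of the line through `e` at `x` -/
def ht (e : (F × F) × (F × F)) (x : F) : F := e.1.2 + sl e * (x - e.1.1)

theorem ht_left (e : (F × F) × (F × F)) : ht e e.1.1 = e.1.2 := by
  unfold ht; ring

theorem ht_right (e : (F × F) × (F × F)) (h : e.1.1 < e.2.1) : ht e e.2.1 = e.2.2 := by
  unfold ht sl
  have : e.2.1 - e.1.1 ≠ 0 := (sub_pos.mpr h).ne'
  rw [div_mul_cancel₀ _ this]
  ring

theorem ht_sub (e : (F × F) × (F × F)) (x y : F) : ht e x = ht e y + sl e * (x - y) := by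
  unfold ht; ring

theorem ht_cross (e e' : (F × F) × (F × F)) {a b : F} (hab : a < b) (h1 : ht e a < ht e' a)
    (h2 : ht e' b < ht e b) : ∃ x, a < x ∧ x < b ∧ ht e x = ht e' x := by
  have e1 := ht_sub e b a
  have e2 := ht_sub e' b a
  set u := ht e' a - ht e a with hu
  set v := ht e b - ht e' b with hv
  have hu0 : 0 < u := sub_pos.mpr h1
  have hv0 : 0 < v := sub_pos.mpr h2
  have huv : 0 < u + v := add_pos hu0 hv0
  have hba : 0 < b - a := sub_pos.mpr hab
  have hs : (sl e - sl e') * (b - a) = u + v := by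
    rw [hu, hv, e1, e2]; ring
  refine ⟨a + (b - a) * (u / (u + v)), ?_, ?_, ?_⟩
  · have : 0 < (b - a) * (u / (u + v)) := by positivity
    linarith
  · have h3 : u / (u + v) < 1 := by
      rw [div_lt_one huv]; linarith
    have : (b - a) * (u / (u + v)) < (b - a) * 1 := mul_lt_mul_of_pos_left h3 hba
    linarith
  · rw [ht_sub e _ a, ht_sub e' _ a]
    have h4 : (sl e - sl e') * ((b - a) * (u / (u + v))) = u := by
      rw [← mul_assoc, hs]
      field_simp
    have h5 : u = ht e' a - ht e a := hu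
    have h6 : (sl e - sl e') * ((b - a) * (u / (u + v))) = ht e' a - ht e a := by rw [h4]
    ring_nf at h6 ⊢
    linarith

/-- a straight-line graph: edges directed to the right, no vertex inside an edge -/
structure PG (P : Finset (F × F)) (E : Finset ((F × F) × (F × F))) : Prop where
  inj : ∀ p ∈ P, ∀ q ∈ P, p.1 = q.1 → p = q
  left : ∀ e ∈ E, e.1 ∈ P
  right : ∀ e ∈ E, e.2 ∈ P
  lt : ∀ e ∈ E, e.1.1 < e.2.1
  vert : ∀ e ∈ E, ∀ r ∈ P, e.1.1 < r.1 → r.1 < e.2.1 → r.2 ≠ ht e r.1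

/-- the open segments meet -/
def Crosses (e e' : (F × F) × (F × F)) : Prop :=
  ∃ x, e.1.1 < x ∧ x < e.2.1 ∧ e'.1.1 < x ∧ x < e'.2.1 ∧ ht e x = ht e' x

theorem Crosses.symm {e e' : (F × F) × (F × F)} (h : Crosses e e') : Crosses e' e := by
  obtain ⟨x, h1, h2, h3, h4, h5⟩ := h
  exact ⟨x, h3, h4, h1, h2, h5.symm⟩

variable {P : Finset (F × F)} {E : Finset ((F × F) × (F × F))}

theorem PG.same_left (h : PG P E) {e e' : (F × F) × (F × F)} (he : e ∈ E) (he' : e' ∈ E)
    (h1 : e.1 = e'.1) (hs : sl e = sl e') : e = e' := by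
  have hh : ∀ x, ht e x = ht e' x := fun x => by unfold ht; rw [h1, hs]
  rcases lt_trichotomy e.2.1 e'.2.1 with h2 | h2 | h2
  · exfalso
    apply h.vert e' he' e.2 (h.right e he) (by rw [← h1]; exact h.lt e he) h2
    rw [← hh, ht_right e (h.lt e he)]
  · exact Prod.ext h1 (h.inj _ (h.right e he) _ (h.right e' he') h2)
  · exfalso
    apply h.vert e he e'.2 (h.right e' he') (by rw [h1]; exact h.lt e' he') h2
    rw [hh, ht_right e' (h.lt e' he')]

theorem PG.same_right (h : PG P E) {e e' : (F × F) × (F × F)} (he : e ∈ E) (he' : e' ∈ E)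
    (h1 : e.2 = e'.2) (hs : sl e = sl e') : e = e' := by
  have hh : ∀ x, ht e x = ht e' x := fun x => by
    rw [ht_sub e x e.2.1, ht_sub e' x e'.2.1, ht_right e (h.lt e he), ht_right e' (h.lt e' he'),
      h1, hs]
  rcases lt_trichotomy e.1.1 e'.1.1 with h2 | h2 | h2
  · exfalso
    apply h.vert e he e'.1 (h.left e' he') h2 (by rw [h1]; exact h.lt e' he')
    rw [hh, ht_left]
  · exact Prod.ext (h.inj _ (h.left e he) _ (h.left e' he') h2) h1
  · exfalso
    apply h.vert e' he' e.1 (h.left e he) h2 (by rw [← h1]; exact h.lt e he)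
    rw [← hh, ht_left]

/-- `d` is the next edge below `e` at the same left endpoint and `w` is the first vertex in the
wedge between them -/
structure Wd (P : Finset (F × F)) (E : Finset ((F × F) × (F × F))) (e d : (F × F) × (F × F))
    (w : F × F) : Prop where
  mem : e ∈ E
  dmem : d ∈ E
  dleft : d.1 = e.1
  slt : sl d < sl e
  next : ∀ f ∈ E, f.1 = e.1 → sl f < sl e → sl f ≤ sl d
  wmem : w ∈ P
  wlt : e.1.1 < w.1
  wd : ht d w.1 ≤ w.2
  we : w.2 ≤ ht e w.1
  first : ∀ r ∈ P, e.1.1 < r.1 → ht d r.1 ≤ r.2 → r.2 ≤ ht e r.1 → w.1 ≤ r.1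

theorem Wd.ht_lt {e d : (F × F) × (F × F)} {w : F × F} (h : Wd P E e d w) {x : F}
    (hx : e.1.1 < x) : ht d x < ht e x := by
  unfold ht
  rw [h.dleft]
  have : sl d * (x - e.1.1) < sl e * (x - e.1.1) :=
    mul_lt_mul_of_pos_right h.slt (sub_pos.mpr hx)
  linarith

theorem Wd.w_le_e (hG : PG P E) {e d : (F × F) × (F × F)} {w : F × F} (h : Wd P E e d w) :
    w.1 ≤ e.2.1 := by
  have hlt := hG.lt e h.mem
  apply h.first e.2 (hG.right e h.mem) hlt
  · rw [← ht_right e hlt]
    exact (h.ht_lt hlt).le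
  · rw [ht_right e hlt]

theorem Wd.w_le_d (hG : PG P E) {e d : (F × F) × (F × F)} {w : F × F} (h : Wd P E e d w) :
    w.1 ≤ d.2.1 := by
  have hlt := hG.lt d h.dmem
  have hlt' : e.1.1 < d.2.1 := by rw [← h.dleft]; exact hlt
  apply h.first d.2 (hG.right d h.dmem) hlt'
  · rw [ht_right d hlt]
  · rw [← ht_right d hlt]
    exact (h.ht_lt hlt').le

theorem Wd.w_eq_e (hG : PG P E) {e d : (F × F) × (F × F)} {w : F × F} (h : Wd P E e d w)
    (hw : w.2 = ht e w.1) : w = e.2 := by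
  rcases lt_or_eq_of_le (h.w_le_e hG) with h1 | h1
  · exact absurd hw (hG.vert e h.mem w h.wmem h.wlt h1)
  · exact hG.inj _ h.wmem _ (hG.right e h.mem) h1

theorem Wd.w_eq_d (hG : PG P E) {e d : (F × F) × (F × F)} {w : F × F} (h : Wd P E e d w)
    (hw : w.2 = ht d w.1) : w = d.2 := by
  rcases lt_or_eq_of_le (h.w_le_d hG) with h1 | h1
  · exact absurd hw (hG.vert d h.dmem w h.wmem (by rw [h.dleft]; exact h.wlt) h1)
  · exact hG.inj _ h.wmem _ (hG.right d h.dmem) h1

/-- no edge enters the wedge from below -/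
theorem Wd.below (hG : PG P E) (hc : ∀ e ∈ E, ∀ e' ∈ E, e ≠ e' → ¬ Crosses e e')
    {e d : (F × F) × (F × F)} {w : F × F} (h : Wd P E e d w) {f : (F × F) × (F × F)}
    (hf : f ∈ E) (hfe : f.1 ≠ e.1) (h1 : f.1.1 < w.1) (h2 : w.1 ≤ f.2.1)
    (h3 : ht d w.1 < ht f w.1) (h4 : ∀ x, x < w.1 → ht f x < ht e x) : False := by
  have hne : f.1.1 ≠ e.1.1 := fun h' => hfe (hG.inj _ (hG.left f hf) _ (hG.left e h.mem) h')
  have hfd : f ≠ d := fun h' => hfe (by rw [h', h.dleft])
  have hd2 := h.w_le_d hG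
  have hd1 : d.1.1 = e.1.1 := by rw [h.dleft]
  rcases lt_or_gt_of_ne hne with h5 | h5
  · -- `f` starts to the left
    have h6 : ht f e.1.1 < ht d e.1.1 := by
      have h7 := h4 _ h.wlt
      rw [ht_left] at h7
      have h8 : ht d e.1.1 = e.1.2 := by rw [← h.dleft, ht_left]
      rw [h8]; exact h7
    obtain ⟨x, hx1, hx2, hx3⟩ := ht_cross f d h.wlt h6 h3
    exact hc f hf d h.dmem hfd ⟨x, h5.trans hx1, hx2.trans_le h2, by rw [hd1]; exact hx1,
      hx2.trans_le hd2, hx3⟩
  · -- `f` starts to the right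
    have h6 : ht f f.1.1 < ht d f.1.1 := by
      by_contra hcon
      push Not at hcon
      have h7 := h4 _ h1
      rw [ht_left] at hcon h7
      exact absurd (h.first f.1 (hG.left f hf) h5 hcon h7.le) (not_le.mpr h1)
    obtain ⟨x, hx1, hx2, hx3⟩ := ht_cross f d h1 h6 h3
    exact hc f hf d h.dmem hfd ⟨x, hx1, hx2.trans_le h2, by rw [hd1]; exact h5.trans hx1,
      hx2.trans_le hd2, hx3⟩

/-- no edge enters the wedge from above -/
theorem Wd.above (hG : PG P E) (hc : ∀ e ∈ E, ∀ e' ∈ E, e ≠ e' → ¬ Crosses e e')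
    {e d : (F × F) × (F × F)} {w : F × F} (h : Wd P E e d w) {f : (F × F) × (F × F)}
    (hf : f ∈ E) (hfe : f.1 ≠ e.1) (h1 : f.1.1 < w.1) (h2 : w.1 ≤ f.2.1)
    (h3 : ht f w.1 < ht e w.1) (h4 : ∀ x, x < w.1 → ht d x < ht f x) : False := by
  have hne : f.1.1 ≠ e.1.1 := fun h' => hfe (hG.inj _ (hG.left f hf) _ (hG.left e h.mem) h')
  have hfd : e ≠ f := fun h' => hfe (by rw [h'])
  have hd2 := h.w_le_e hG
  rcases lt_or_gt_of_ne hne with h5 | h5
  · have h6 : ht e e.1.1 < ht f e.1.1 := by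
      have h7 := h4 _ h.wlt
      have h8 : ht d e.1.1 = e.1.2 := by rw [← h.dleft, ht_left]
      rw [h8] at h7
      rw [ht_left]; exact h7
    obtain ⟨x, hx1, hx2, hx3⟩ := ht_cross e f h.wlt h6 h3
    exact hc e h.mem f hf hfd ⟨x, hx1, hx2.trans_le hd2, h5.trans hx1, hx2.trans_le h2, hx3⟩
  · have h6 : ht e f.1.1 < ht f f.1.1 := by
      by_contra hcon
      push Not at hcon
      have h7 := h4 _ h1
      rw [ht_left] at hcon h7
      exact absurd (h.first f.1 (hG.left f hf) h5 h7.le hcon) (not_le.mpr h1)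
    obtain ⟨x, hx1, hx2, hx3⟩ := ht_cross e f h1 h6 h3
    exact hc e h.mem f hf hfd ⟨x, h5.trans hx1, hx2.trans_le hd2, hx1, hx2.trans_le h2, hx3⟩

/-- type U -/
theorem typeU (hG : PG P E) (hc : ∀ e ∈ E, ∀ e' ∈ E, e ≠ e' → ¬ Crosses e e')
    {e d e' d' : (F × F) × (F × F)} {w : F × F} (h : Wd P E e d w) (h' : Wd P E e' d' w)
    (hw : w = e.2) (hw' : w = e'.2) : e = e' := by
  by_cases hp : e.1 = e'.1
  · exact Prod.ext hp (hw.symm.trans hw')
  by_cases hs : sl e = sl e'
  · exact hG.same_right h.mem h'.mem (hw.symm.trans hw') hs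
  exfalso
  have e1 : ht e w.1 = w.2 := by rw [hw, ht_right e (hG.lt e h.mem)]
  have e2 : ht e' w.1 = w.2 := by rw [hw', ht_right e' (hG.lt e' h'.mem)]
  rcases lt_or_gt_of_ne hs with h1 | h1
  · refine h.below hG hc h'.mem (Ne.symm hp) h'.wlt (h'.w_le_e hG) ?_ ?_
    · rw [e2, ← e1]; exact h.ht_lt h.wlt
    · intro x hx
      rw [ht_sub e' x w.1, ht_sub e x w.1, e1, e2]
      have : sl e' * (x - w.1) < sl e * (x - w.1) :=
        mul_lt_mul_of_neg_right h1 (sub_neg.mpr hx)
      linarith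
  · refine h'.below hG hc h.mem hp h.wlt (h.w_le_e hG) ?_ ?_
    · rw [e1, ← e2]; exact h'.ht_lt h'.wlt
    · intro x hx
      rw [ht_sub e' x w.1, ht_sub e x w.1, e1, e2]
      have : sl e * (x - w.1) < sl e' * (x - w.1) :=
        mul_lt_mul_of_neg_right h1 (sub_neg.mpr hx)
      linarith

/-- type L -/
theorem typeL (hG : PG P E) (hc : ∀ e ∈ E, ∀ e' ∈ E, e ≠ e' → ¬ Crosses e e')
    {e d e' d' : (F × F) × (F × F)} {w : F × F} (h : Wd P E e d w) (h' : Wd P E e' d' w)
    (hw : w = d.2) (hw' : w = d'.2) : e = e' := by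
  by_cases hp : e.1 = e'.1
  · have hd : d = d' := Prod.ext (by rw [h.dleft, h'.dleft, hp]) (hw.symm.trans hw')
    apply hG.same_left h.mem h'.mem hp
    rcases lt_trichotomy (sl e) (sl e') with h1 | h1 | h1
    · have := h'.next e h.mem hp h1
      rw [← hd] at this
      exact absurd h.slt (not_lt.mpr this)
    · exact h1
    · have := h.next e' h'.mem hp.symm h1
      rw [hd] at this
      exact absurd h'.slt (not_lt.mpr this)
  by_cases hs : sl d = sl d'
  · exfalso
    have := hG.same_right h.dmem h'.dmem (hw.symm.trans hw') hs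
    exact hp (by rw [← h.dleft, ← h'.dleft, this])
  exfalso
  have hdl := hG.lt d h.dmem
  have hdl' := hG.lt d' h'.dmem
  have e1 : ht d w.1 = w.2 := by rw [hw, ht_right d hdl]
  have e2 : ht d' w.1 = w.2 := by rw [hw', ht_right d' hdl']
  rcases lt_or_gt_of_ne hs with h1 | h1
  · -- `sl d < sl d'`: left of `w`, `d` is above `d'`
    refine h'.above hG hc h.dmem (by rw [h.dleft]; exact hp) (by rw [h.dleft]; exact h.wlt)
      (h.w_le_d hG) ?_ ?_
    · rw [e1, ← e2]; exact h'.ht_lt h'.wlt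
    · intro x hx
      rw [ht_sub d' x w.1, ht_sub d x w.1, e1, e2]
      have : sl d' * (x - w.1) < sl d * (x - w.1) :=
        mul_lt_mul_of_neg_right h1 (sub_neg.mpr hx)
      linarith
  · refine h.above hG hc h'.dmem (by rw [h'.dleft]; exact Ne.symm hp)
      (by rw [h'.dleft]; exact h'.wlt) (h'.w_le_d hG) ?_ ?_
    · rw [e2, ← e1]; exact h.ht_lt h.wlt
    · intro x hx
      rw [ht_sub d' x w.1, ht_sub d x w.1, e1, e2]
      have : sl d * (x - w.1) < sl d' * (x - w.1) :=
        mul_lt_mul_of_neg_right h1 (sub_neg.mpr hx)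
      linarith

theorem typeI_aux (hG : PG P E) (hc : ∀ e ∈ E, ∀ e' ∈ E, e ≠ e' → ¬ Crosses e e')
    {e d e' d' : (F × F) × (F × F)} {w : F × F} (h : Wd P E e d w) (h' : Wd P E e' d' w)
    (hw1 : ht d w.1 < w.2) (hw2 : w.2 < ht e w.1) (hw1' : ht d' w.1 < w.2)
    (hw2' : w.2 < ht e' w.1) (hlt : e.1.1 < e'.1.1) : False := by
  have hmin := h.first e'.1 (hG.left e' h'.mem) hlt
  have hd1 : d.1.1 = e.1.1 := by rw [h.dleft]
  have hd1' : d'.1.1 = e'.1.1 := by rw [h'.dleft]
  have hne : e'.1 ≠ e.1 := fun hh => by rw [hh] at hlt; exact lt_irrefl _ hlt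
  by_cases h1 : e'.1.2 ≤ ht e e'.1.1
  · by_cases h2 : ht d e'.1.1 ≤ e'.1.2
    · exact absurd (hmin h2 h1) (not_le.mpr h'.wlt)
    · push Not at h2
      obtain ⟨x, hx1, hx2, hx3⟩ := ht_cross e' d h'.wlt (by rw [ht_left]; exact h2)
        (hw1.trans hw2')
      refine hc e' h'.mem d h.dmem (fun hh => hne (by rw [hh, h.dleft])) ⟨x, hx1,
        hx2.trans_le (h'.w_le_e hG), by rw [hd1]; exact hlt.trans hx1,
        hx2.trans_le (h.w_le_d hG), hx3⟩
  · push Not at h1
    obtain ⟨x, hx1, hx2, hx3⟩ := ht_cross e d' h'.wlt (by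
      rw [show ht d' e'.1.1 = e'.1.2 by rw [← h'.dleft, ht_left]]
      exact h1) (hw1'.trans hw2)
    refine hc e h.mem d' h'.dmem (fun hh => hne (by rw [hh, h'.dleft])) ⟨x, hlt.trans hx1,
      hx2.trans_le (h.w_le_e hG), by rw [hd1']; exact hx1,
      hx2.trans_le (h'.w_le_d hG), hx3⟩

/-- type I -/
theorem typeI (hG : PG P E) (hc : ∀ e ∈ E, ∀ e' ∈ E, e ≠ e' → ¬ Crosses e e')
    {e d e' d' : (F × F) × (F × F)} {w : F × F} (h : Wd P E e d w) (h' : Wd P E e' d' w)
    (hw1 : w ≠ d.2) (hw2 : w ≠ e.2) (hw1' : w ≠ d'.2) (hw2' : w ≠ e'.2) : e = e' := by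
  have a1 : ht d w.1 < w.2 := lt_of_le_of_ne h.wd fun hh => hw1 (h.w_eq_d hG hh.symm)
  have a2 : w.2 < ht e w.1 := lt_of_le_of_ne h.we fun hh => hw2 (h.w_eq_e hG hh)
  have a1' : ht d' w.1 < w.2 := lt_of_le_of_ne h'.wd fun hh => hw1' (h'.w_eq_d hG hh.symm)
  have a2' : w.2 < ht e' w.1 := lt_of_le_of_ne h'.we fun hh => hw2' (h'.w_eq_e hG hh)
  rcases lt_trichotomy e.1.1 e'.1.1 with h1 | h1 | h1
  · exact absurd h1 fun h1 => typeI_aux hG hc h h' a1 a2 a1' a2' h1
  · have hp : e.1 = e'.1 := hG.inj _ (hG.left e h.mem) _ (hG.left e' h'.mem) h1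
    apply hG.same_left h.mem h'.mem hp
    have key : ∀ {e d e' d' : (F × F) × (F × F)}, Wd P E e d w → Wd P E e' d' w → e.1 = e'.1 →
        w.2 < ht e w.1 → ht d' w.1 < w.2 → ¬ sl e < sl e' := by
      intro e d e' d' h h' hp a2 a1' h2
      have h3 := h'.next e h.mem hp h2
      have h4 : ht e w.1 ≤ ht d' w.1 := by
        unfold ht
        rw [h'.dleft, ← hp]
        have : sl e * (w.1 - e.1.1) ≤ sl d' * (w.1 - e.1.1) :=
          mul_le_mul_of_nonneg_right h3 (sub_pos.mpr h.wlt).le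
        linarith
      linarith
    exact le_antisymm (not_lt.mp (key h' h hp.symm a2' a1)) (not_lt.mp (key h h' hp a2 a1'))
  · exact absurd h1 fun h1 => typeI_aux hG hc h' h a1' a2' a1 a2 h1

/-- **A plane straight-line graph has few edges.** -/
theorem noncross (hG : PG P E) (hc : ∀ e ∈ E, ∀ e' ∈ E, e ≠ e' → ¬ Crosses e e') :
    E.card ≤ 4 * P.card := by
  classical
  set Q : (F × F) × (F × F) → Prop := fun e => ∃ e' ∈ E, e'.1 = e.1 ∧ sl e' < sl e with hQ
  have h0 : (E.filter (fun e => ¬ Q e)).card ≤ P.card := by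
    apply Finset.card_le_card_of_injOn (fun e => e.1)
    · intro e he
      rw [Finset.mem_coe, mem_filter] at he
      exact hG.left e he.1
    · intro e he e' he' hee
      rw [Finset.mem_coe, mem_filter] at he he'
      simp only at hee
      apply hG.same_left he.1 he'.1 hee
      apply le_antisymm
      · by_contra hcon
        exact he.2 ⟨e', he'.1, hee.symm, not_le.mp hcon⟩
      · by_contra hcon
        exact he'.2 ⟨e, he.1, hee, not_le.mp hcon⟩
  have hex : ∀ e ∈ E.filter Q, ∃ d w, Wd P E e d w := by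
    intro e he
    rw [mem_filter] at he
    obtain ⟨he, e', he', h1, h2⟩ := he
    obtain ⟨d, hd, hdm⟩ := Finset.exists_max_image (E.filter (fun f => f.1 = e.1 ∧ sl f < sl e)) sl
      ⟨e', mem_filter.mpr ⟨he', h1, h2⟩⟩
    rw [mem_filter] at hd
    obtain ⟨hdE, hd1, hd2⟩ := hd
    have hlt := hG.lt e he
    obtain ⟨w, hw, hwm⟩ := Finset.exists_min_image
      (P.filter (fun r => e.1.1 < r.1 ∧ ht d r.1 ≤ r.2 ∧ r.2 ≤ ht e r.1)) (fun r => r.1)
      ⟨e.2, by
        rw [mem_filter]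
        refine ⟨hG.right e he, hlt, ?_, ?_⟩
        · rw [← ht_right e hlt]
          unfold ht
          rw [hd1]
          have : sl d * (e.2.1 - e.1.1) ≤ sl e * (e.2.1 - e.1.1) :=
            mul_le_mul_of_nonneg_right hd2.le (sub_pos.mpr hlt).le
          linarith
        · rw [ht_right e hlt]⟩
    rw [mem_filter] at hw
    exact ⟨d, w, he, hdE, hd1, hd2, fun f hf hf1 hf2 => hdm f (mem_filter.mpr ⟨hf, hf1, hf2⟩),
      hw.1, hw.2.1, hw.2.2.1, hw.2.2.2, fun r hr h1 h2 h3 => hwm r (mem_filter.mpr ⟨hr, h1, h2, h3⟩)⟩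
  choose! D W hW using hex
  have hU : ((E.filter Q).filter (fun e => W e = e.2)).card ≤ P.card := by
    apply Finset.card_le_card_of_injOn W
    · intro e he
      rw [Finset.mem_coe, mem_filter] at he
      exact (hW e he.1).wmem
    · intro e he e' he' hee
      rw [Finset.mem_coe, mem_filter] at he he'
      have h1 := hW e he.1
      have h2 := hW e' he'.1
      rw [← hee] at h2
      exact typeU hG hc h1 h2 he.2 (hee.trans he'.2)
  have hL : ((E.filter Q).filter (fun e => ¬ W e = e.2 ∧ W e = (D e).2)).card ≤ P.card := by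
    apply Finset.card_le_card_of_injOn W
    · intro e he
      rw [Finset.mem_coe, mem_filter] at he
      exact (hW e he.1).wmem
    · intro e he e' he' hee
      rw [Finset.mem_coe, mem_filter] at he he'
      have h1 := hW e he.1
      have h2 := hW e' he'.1
      rw [← hee] at h2
      exact typeL hG hc h1 h2 he.2.2 (hee.trans he'.2.2)
  have hI : ((E.filter Q).filter (fun e => ¬ W e = e.2 ∧ ¬ W e = (D e).2)).card ≤ P.card := by
    apply Finset.card_le_card_of_injOn W
    · intro e he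
      rw [Finset.mem_coe, mem_filter] at he
      exact (hW e he.1).wmem
    · intro e he e' he' hee
      rw [Finset.mem_coe, mem_filter] at he he'
      have h1 := hW e he.1
      have h2 := hW e' he'.1
      rw [← hee] at h2
      exact typeI hG hc h1 h2 he.2.2 he.2.1 (by rw [hee]; exact he'.2.2) (by rw [hee]; exact he'.2.1)
  have hcov : E ⊆ E.filter (fun e => ¬ Q e) ∪ ((E.filter Q).filter (fun e => W e = e.2) ∪
      ((E.filter Q).filter (fun e => ¬ W e = e.2 ∧ W e = (D e).2) ∪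
        (E.filter Q).filter (fun e => ¬ W e = e.2 ∧ ¬ W e = (D e).2))) := by
    intro e he
    simp only [mem_union, mem_filter]
    by_cases h1 : Q e
    · by_cases h2 : W e = e.2
      · exact Or.inr (Or.inl ⟨⟨he, h1⟩, h2⟩)
      · by_cases h3 : W e = (D e).2
        · exact Or.inr (Or.inr (Or.inl ⟨⟨he, h1⟩, h2, h3⟩))
        · exact Or.inr (Or.inr (Or.inr ⟨⟨he, h1⟩, h2, h3⟩))
    · exact Or.inl ⟨he, h1⟩
  have h1 := card_le_card hcov
  have h2 := card_union_le (E.filter (fun e => ¬ Q e)) ((E.filter Q).filter (fun e => W e = e.2) ∪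
      ((E.filter Q).filter (fun e => ¬ W e = e.2 ∧ W e = (D e).2) ∪
        (E.filter Q).filter (fun e => ¬ W e = e.2 ∧ ¬ W e = (D e).2)))
  have h3 := card_union_le ((E.filter Q).filter (fun e => W e = e.2))
      ((E.filter Q).filter (fun e => ¬ W e = e.2 ∧ W e = (D e).2) ∪
        (E.filter Q).filter (fun e => ¬ W e = e.2 ∧ ¬ W e = (D e).2))
  have h4 := card_union_le ((E.filter Q).filter (fun e => ¬ W e = e.2 ∧ W e = (D e).2))
        ((E.filter Q).filter (fun e => ¬ W e = e.2 ∧ ¬ W e = (D e).2))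
  omega

end Pool.Agent.H460.ST
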